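import Pool.Agent.H87.UltraModel
import Pool.Agent.H87.UltraGraph2

/-!
A Borel graph with chromatic number 3 and countable colouring number whose 3-colourings yield
nonprincipal ultrafilters in every transitive model of ZF + DC.
-/

set_option autoImplicit false

namespace Pool.Agent.Results.MP_7d109d_lc.UltrafilterColouring

open Pool.Agent.H87.Ultra

universe u

/-- There is a Borel graph `Γ` (on the Polish space `9 × 2^ℕ × 2^ℕ`) with finite chromatic number
`k` and countable colouring number such that every transitive model of ZF + DC containing a
`k`-colouring of `Γ` contains a nonprincipal ultrafilter on `ω`. -/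
theorem result : ∃ (k : ℕ) (Γ : SimpleGraph Vertex),
    IsBorelGraph Γ ∧ Γ.chromaticNumber = k ∧ CountableColouringNumber Γ ∧
    ∀ M : Set ZFSet.{u}, IsTransitiveModelZFDC M → ContainsColouring M Γ k →
      ContainsNonprincipalUltrafilter M :=
  ⟨3, graph, isBorelGraph, chromaticNumber_eq, countableColouringNumber,
    fun _ hM h => ultrafilter_of_colouring hM h⟩

end Pool.Agent.Results.MP_7d109d_lc.UltrafilterColouring
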